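import Pool.Agent.H59.NC.Dim

/-! The module `MM = kk[s,y,w]_(y,w)`. -/

set_option autoImplicit false

namespace Pool.Agent.H59.NC

open IsLocalRing MvPolynomial

/-- `kk[s,y,w] → kk[s]`, `y, w ↦ 0` -/
noncomputable def piM : Q3 →ₐ[kk] Polynomial kk := aeval ![Polynomial.X, 0, 0]

/-- the prime `(y,w)` -/
noncomputable def PM : Ideal Q3 := RingHom.ker (piM : Q3 →+* Polynomial kk)

instance : PM.IsPrime := RingHom.ker_isPrime _

theorem mem_PM {f : Q3} : f ∈ PM ↔ piM f = 0 := Iff.rfl

/-- the module `M` (a ring). -/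
def MM : Type := Localization.AtPrime PM

noncomputable instance : CommRing MM := inferInstanceAs (CommRing (Localization.AtPrime PM))
noncomputable instance : Algebra Q3 MM := inferInstanceAs (Algebra Q3 (Localization.AtPrime PM))
instance : IsLocalization.AtPrime MM PM :=
  inferInstanceAs (IsLocalization.AtPrime (Localization.AtPrime PM) PM)
instance : IsDomain MM := inferInstanceAs (IsDomain (Localization.AtPrime PM))
instance : IsLocalRing MM := inferInstanceAs (IsLocalRing (Localization.AtPrime PM))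
instance : IsNoetherianRing MM := IsLocalization.isNoetherianRing PM.primeCompl MM inferInstance

theorem QtoM_injective : Function.Injective (algebraMap Q3 MM) :=
  IsLocalization.injective MM (Ideal.primeCompl_le_nonZeroDivisors PM)

theorem surj_M (m : MM) : ∃ f t : Q3, piM t ≠ 0 ∧ m * algebraMap Q3 MM t = algebraMap Q3 MM f := by
  obtain ⟨⟨c, t⟩, h⟩ := IsLocalization.surj PM.primeCompl m
  exact ⟨c, t, t.2, h⟩

theorem isUnit_M {t : Q3} (ht : piM t ≠ 0) : IsUnit (algebraMap Q3 MM t) :=
  IsLocalization.map_units MM (⟨t, ht⟩ : PM.primeCompl)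

/-- `CC → kk[s,y,w]`, `x, u ↦ 0` -/
noncomputable def gM : CC →ₐ[kk] Q3 := mapC ![X 0, 0, 1, X 2, X 1]

/-- `kk[s,y,w] → CC` -/
noncomputable def sM : Q3 →ₐ[kk] CC := aeval ![sC, yC, wC]

theorem gM_sM (f : Q3) : gM (sM f) = f := by
  have : gM.comp sM = AlgHom.id kk _ := by
    apply MvPolynomial.algHom_ext
    intro i
    rw [AlgHom.comp_apply]
    fin_cases i <;> simp [gM, sM, mapC]
  exact DFunLike.congr_fun this f

theorem evs_eq (c : CC) : evs (c : P5) = piM (gM c) := by
  have : evs.comp CC.val = piM.comp gM := by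
    apply CC_hom_ext
    intro i
    rw [AlgHom.comp_apply]
    fin_cases i <;> simp [gM, mapC, coe_toCC, toP5, gens, evs, piM]
  exact DFunLike.congr_fun this c

theorem e1_eq (c : CC) : e1 c = Phi (piM (gM c)) := by rw [e1_apply, evs_eq]

theorem gM_ne {c : CC} (hc : c ∈ SS) : piM (gM c) ≠ 0 := by
  intro h
  apply hc.1
  rw [e1_eq, h, map_zero]

/-- the projection `BB → MM` -/
noncomputable def rho : BB →+* MM :=
  IsLocalization.lift (M := SS) (S := BB) (g := (algebraMap Q3 MM).comp (gM : CC →+* Q3))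
    (fun y => isUnit_M (gM_ne y.2))

theorem rho_C (c : CC) : rho (algebraMap CC BB c) = algebraMap Q3 MM (gM c) :=
  IsLocalization.lift_eq _ _

noncomputable def yM : MM := algebraMap Q3 MM (X 1)
noncomputable def wM : MM := algebraMap Q3 MM (X 2)

@[simp] theorem rho_x : rho xB = 0 := by
  rw [xB, rho_C]; simp [gM, mapC]
@[simp] theorem rho_u : rho uB = 0 := by
  rw [uB, rho_C]; simp [gM, mapC]
@[simp] theorem rho_y : rho yB = yM := by
  rw [yB, rho_C]; simp [gM, mapC, yM]
@[simp] theorem rho_w : rho wB = wM := by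
  rw [wB, rho_C]; simp [gM, mapC, wM]

theorem rho_surjective_B : Function.Surjective rho := by
  intro m
  obtain ⟨f, t, ht, h⟩ := surj_M m
  let t' : CC := sM t + algebraMap kk CC (1 - e2 (sM t)) * xC
  have gx : gM xC = 0 := by simp [gM, mapC]
  have hg : gM t' = t := by
    simp only [t', map_add, map_mul, gM_sM, gx, mul_zero, add_zero]
  have ht' : t' ∈ SS := by
    constructor
    · rw [e1_eq, hg]
      intro h0
      exact ht (Phi_injective (by rw [h0, map_zero]))
    · simp [t']
  obtain ⟨v, hv⟩ := isUnit_of_mem_SS ht'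
  refine ⟨algebraMap CC BB (sM f) * ↑v⁻¹, ?_⟩
  have h1 : rho (↑v : BB) = algebraMap Q3 MM t := by rw [hv, rho_C, hg]
  have h2 : rho (↑v : BB) * rho (↑v⁻¹ : BB) = 1 := by rw [← map_mul]; simp
  have h3 : rho (algebraMap CC BB (sM f)) = algebraMap Q3 MM f := by rw [rho_C, gM_sM]
  rw [map_mul, h3, ← h, ← h1, mul_assoc, h2, mul_one]

/-- the projection `AA → MM` -/
noncomputable def rhoA : AA →+* MM := rho.comp AA.subtype

theorem rhoA_surjective : Function.Surjective rhoA := by
  intro m
  obtain ⟨b, hb⟩ := rho_surjective_B m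
  obtain ⟨a, d, h⟩ := AA_add b
  refine ⟨a, ?_⟩
  change rho (a : BB) = m
  rw [← hb, h]
  simp

noncomputable instance : Algebra AA MM := rhoA.toAlgebra

theorem algebraMap_AA_MM (a : AA) : algebraMap AA MM a = rho (a : BB) := rfl

theorem smul_AA_MM (a : AA) (m : MM) : a • m = rho (a : BB) * m := rfl

instance : Module.Finite AA MM :=
  Module.Finite.of_surjective (Algebra.linearMap AA MM) rhoA_surjective

/-! ### the maximal ideal of `MM` -/

theorem mod_PM (F : Q3) : ∃ f : Polynomial kk,
    F - Polynomial.aeval (X 0 : Q3) f ∈ Ideal.span ({X 1, X 2} : Set Q3) := by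
  induction F using MvPolynomial.induction_on with
  | C a =>
    refine ⟨Polynomial.C a, ?_⟩
    rw [Polynomial.aeval_C]
    have : (C a : Q3) - algebraMap kk Q3 a = 0 := sub_self _
    rw [this]
    exact Ideal.zero_mem _
  | add p q hp hq =>
    obtain ⟨f, hf⟩ := hp
    obtain ⟨g, hg⟩ := hq
    refine ⟨f + g, ?_⟩
    have : p + q - Polynomial.aeval (X 0 : Q3) (f + g) =
        (p - Polynomial.aeval (X 0 : Q3) f) + (q - Polynomial.aeval (X 0 : Q3) g) := by
      rw [map_add]; ring
    rw [this]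
    exact Ideal.add_mem _ hf hg
  | mul_X p i hp =>
    obtain ⟨f, hf⟩ := hp
    by_cases hi : i = 0
    · subst hi
      refine ⟨f * Polynomial.X, ?_⟩
      have : p * X 0 - Polynomial.aeval (X 0 : Q3) (f * Polynomial.X) =
          (p - Polynomial.aeval (X 0 : Q3) f) * X 0 := by
        rw [map_mul, Polynomial.aeval_X]; ring
      rw [this]
      exact Ideal.mul_mem_right _ _ hf
    · refine ⟨0, ?_⟩
      rw [map_zero, sub_zero]
      apply Ideal.mul_mem_left
      apply Ideal.subset_span
      fin_cases i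
      · exact absurd rfl hi
      · exact Or.inl rfl
      · exact Or.inr rfl

theorem PM_eq : PM = Ideal.span ({X 1, X 2} : Set Q3) := by
  apply le_antisymm
  · intro F hF
    rw [mem_PM] at hF
    obtain ⟨f, hf⟩ := mod_PM F
    have h0 : Ideal.span ({X 1, X 2} : Set Q3) ≤ PM := by
      rw [Ideal.span_le]
      rintro z (rfl | rfl) <;> (rw [SetLike.mem_coe, mem_PM]; simp [piM])
    have h1 := h0 hf
    rw [mem_PM, map_sub, hF, zero_sub, neg_eq_zero] at h1
    have h2 : piM (Polynomial.aeval (X 0 : Q3) f) = f := by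
      have : piM.comp (Polynomial.aeval (X 0 : Q3)) = AlgHom.id kk _ := by
        apply Polynomial.algHom_ext
        simp [piM]
      exact DFunLike.congr_fun this f
    rw [h2] at h1
    rw [h1, map_zero, sub_zero] at hf
    exact hf
  · rw [Ideal.span_le]
    rintro z (rfl | rfl) <;> (rw [SetLike.mem_coe, mem_PM]; simp [piM])

theorem max_MM : maximalIdeal MM = Ideal.span ({yM, wM} : Set MM) := by
  have h1 : maximalIdeal MM = PM.map (algebraMap Q3 MM) :=
    (IsLocalization.AtPrime.map_eq_maximalIdeal PM MM).symm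
  rw [h1, PM_eq, Ideal.map_span, Set.image_insert_eq, Set.image_singleton]
  rfl

theorem dim_MM_le : ringKrullDim MM ≤ ((2 : ℕ) : WithBot ℕ∞) := by
  refine (ringKrullDim_le_spanFinrank_maximalIdeal MM).trans ?_
  have h1 : (maximalIdeal MM).spanFinrank ≤ 2 := by
    rw [max_MM]
    refine (Submodule.spanFinrank_span_le_ncard_of_finite (Set.toFinite _)).trans ?_
    have := Set.ncard_insert_le yM ({wM} : Set MM)
    have := Set.ncard_singleton wM
    omega
  exact_mod_cast h1

theorem support_MM (p : PrimeSpectrum AA) (hp : p ∈ Module.support AA MM) :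
    ringKrullDim (AA ⧸ p.asIdeal) ≤ ((2 : ℕ) : WithBot ℕ∞) := by
  have hker : RingHom.ker rhoA ≤ p.asIdeal := by
    have h1 := Module.annihilator_le_of_mem_support hp
    refine le_trans ?_ h1
    intro a ha
    rw [Module.mem_annihilator]
    intro m
    have : rho (a : BB) = 0 := ha
    rw [smul_AA_MM, this, zero_mul]
  have e := RingHom.quotientKerEquivOfSurjective rhoA_surjective
  have h2 : ringKrullDim (AA ⧸ RingHom.ker rhoA) ≤ ((2 : ℕ) : WithBot ℕ∞) := by
    rw [ringKrullDim_eq_of_ringEquiv e]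
    exact dim_MM_le
  refine le_trans ?_ h2
  exact ringKrullDim_le_of_surjective (Ideal.Quotient.factor hker) (Ideal.Quotient.factor_surjective hker)

/-! ### `y, w` is a regular sequence in `MM` -/

theorem yM_ne : yM ≠ 0 := by
  intro h
  have : (X 1 : Q3) = 0 := QtoM_injective (by rw [map_zero]; exact h)
  exact X_ne_zero 1 this

theorem wM_ne : wM ≠ 0 := by
  intro h
  have : (X 2 : Q3) = 0 := QtoM_injective (by rw [map_zero]; exact h)
  exact X_ne_zero 2 this

theorem aux_dvd {i j : Fin 3} (hij : i ≠ j) (hi : (X i : Q3) ∈ PM) {z : MM}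
    (h : algebraMap Q3 MM (X i) ∣ algebraMap Q3 MM (X j) * z) : algebraMap Q3 MM (X i) ∣ z := by
  obtain ⟨c, hc⟩ := h
  obtain ⟨f, t, ht, hf⟩ := surj_M z
  obtain ⟨f', t', ht', hf'⟩ := surj_M c
  have h1 : (X j : Q3) * f * t' = X i * f' * t := by
    apply QtoM_injective
    simp only [map_mul]
    rw [← hf, ← hf']
    linear_combination (algebraMap Q3 MM t) * (algebraMap Q3 MM t') * hc
  have hpr : Prime (X i : Q3) := MvPolynomial.X_prime
  have h2 : (X i : Q3) ∣ X j * f * t' := ⟨f' * t, by rw [h1]; ring⟩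
  have h3 : (X i : Q3) ∣ f := by
    rcases hpr.dvd_or_dvd h2 with h | h
    · rcases hpr.dvd_or_dvd h with h | h
      · exfalso
        rw [MvPolynomial.X_dvd_X] at h
        exact hij h
      · exact h
    · exfalso
      apply ht'
      obtain ⟨d, rfl⟩ := h
      have := Ideal.mul_mem_right d _ hi
      exact this
  obtain ⟨d, rfl⟩ := h3
  obtain ⟨v, hv⟩ := isUnit_M ht
  refine ⟨algebraMap Q3 MM d * ↑v⁻¹, ?_⟩
  rw [← mul_assoc, ← map_mul, ← hf, ← hv, mul_assoc, Units.mul_inv, mul_one]

theorem yM_dvd {z : MM} (h : yM ∣ wM * z) : yM ∣ z :=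
  aux_dvd (by decide) (by rw [mem_PM]; simp [piM]) h

theorem wM_dvd {z : MM} (h : wM ∣ yM * z) : wM ∣ z :=
  aux_dvd (by decide) (by rw [mem_PM]; simp [piM]) h

end Pool.Agent.H59.NC
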