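import Pool.Agent.H59.NC.Reg

/-! `ringKrullDim AA = 4`. -/

set_option autoImplicit false

namespace Pool.Agent.H59.NC

open IsLocalRing

/-! ### lower bound -/

noncomputable def liftB {Q : Type} [CommRing Q] [IsDomain Q] (γ : CC →+* Q)
    (hγ : ∀ c ∈ SS, γ c ≠ 0) : BB →+* FractionRing Q :=
  IsLocalization.lift (M := SS) (S := BB) (g := (algebraMap Q (FractionRing Q)).comp γ)
    (fun y => IsUnit.mk0 _ (by
      intro h0
      exact hγ y y.2 (IsFractionRing.injective Q (FractionRing Q) (by rw [map_zero]; exact h0))))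

theorem liftB_C {Q : Type} [CommRing Q] [IsDomain Q] (γ : CC →+* Q)
    (hγ : ∀ c ∈ SS, γ c ≠ 0) (c : CC) :
    liftB γ hγ (algebraMap CC BB c) = algebraMap Q (FractionRing Q) (γ c) :=
  IsLocalization.lift_eq _ _

/-- the prime of `AA` defined by `γ`. -/
noncomputable def pr {Q : Type} [CommRing Q] [IsDomain Q] (γ : CC →+* Q)
    (hγ : ∀ c ∈ SS, γ c ≠ 0) : Ideal AA := RingHom.ker ((liftB γ hγ).comp AA.subtype)

theorem pr_prime {Q : Type} [CommRing Q] [IsDomain Q] (γ : CC →+* Q)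
    (hγ : ∀ c ∈ SS, γ c ≠ 0) : (pr γ hγ).IsPrime := RingHom.ker_isPrime _

theorem mem_pr {Q : Type} [CommRing Q] [IsDomain Q] (γ : CC →+* Q)
    (hγ : ∀ c ∈ SS, γ c ≠ 0) {a : AA} {c : CC} (h : (a : BB) = algebraMap CC BB c) :
    a ∈ pr γ hγ ↔ γ c = 0 := by
  change liftB γ hγ (a : BB) = 0 ↔ _
  rw [h, liftB_C]
  exact FaithfulSMul.algebraMap_eq_zero_iff _ _

theorem pr_le {Q : Type} [CommRing Q] [IsDomain Q] (γ : CC →+* Q)
    (hγ : ∀ c ∈ SS, γ c ≠ 0) {Q' : Type} [CommRing Q'] [IsDomain Q'] (γ' : CC →+* Q')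
    (hγ' : ∀ c ∈ SS, γ' c ≠ 0) (h : ∀ c, γ c = 0 → γ' c = 0) : pr γ hγ ≤ pr γ' hγ' := by
  intro a ha
  have ha' : liftB γ hγ (a : BB) = 0 := ha
  obtain ⟨c, t, ht, hc⟩ := surj_B (a : BB)
  have h1 : γ c = 0 := by
    have h2 := congrArg (liftB γ hγ) hc
    rw [map_mul, ha', zero_mul, liftB_C] at h2
    exact (FaithfulSMul.algebraMap_eq_zero_iff _ _).1 h2.symm
  have h3 := congrArg (liftB γ' hγ') hc
  rw [map_mul, liftB_C, liftB_C, h c h1, map_zero] at h3
  change liftB γ' hγ' (a : BB) = 0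
  refine (mul_eq_zero.1 h3).resolve_right ?_
  intro h4
  exact hγ' t ht ((FaithfulSMul.algebraMap_eq_zero_iff _ _).1 h4)

section maps

abbrev Q3 : Type := MvPolynomial (Fin 3) kk

open MvPolynomial

/-- a ring homomorphism `CC → Q` from values of `s,a,b,p,q`. -/
noncomputable def mapC {Q : Type} [CommRing Q] [Algebra kk Q] (v : Fin 5 → Q) : CC →ₐ[kk] Q :=
  (aeval v).comp CC.val

theorem CC_hom_ext {Q : Type} [CommRing Q] [Algebra kk Q] {f g : CC →ₐ[kk] Q}
    (h : ∀ i, f (toCC (X i)) = g (toCC (X i))) : f = g := by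
  have h1 : f.comp toCC = g.comp toCC := MvPolynomial.algHom_ext h
  ext c
  obtain ⟨F, rfl⟩ := toCC_surjective c
  exact DFunLike.congr_fun h1 F

noncomputable def g1 : CC →ₐ[kk] Q3 := mapC ![X 0, X 1, X 2, 1, 0]
noncomputable def g2 : CC →ₐ[kk] Q3 := mapC ![X 0, X 1, 0, 1, 0]
noncomputable def g3 : CC →ₐ[kk] Q3 := mapC ![0, X 1, 0, 1, 0]

theorem g2_eq (c : CC) : g2 c = aeval (![X 0, X 1, 0] : Fin 3 → Q3) (g1 c) := by
  have : g2 = (aeval (![X 0, X 1, 0] : Fin 3 → Q3)).comp g1 := by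
    apply CC_hom_ext
    intro i
    rw [AlgHom.comp_apply]
    fin_cases i <;> simp [g1, g2, mapC, coe_toCC, toP5, gens]
  rw [this]; rfl

theorem g3_eq (c : CC) : g3 c = aeval (![0, X 1, 0] : Fin 3 → Q3) (g2 c) := by
  have : g3 = (aeval (![0, X 1, 0] : Fin 3 → Q3)).comp g2 := by
    apply CC_hom_ext
    intro i
    rw [AlgHom.comp_apply]
    fin_cases i <;> simp [g2, g3, mapC, coe_toCC, toP5, gens]
  rw [this]; rfl

theorem e2_eq (c : CC) : e2 c = aeval (![0, 1, 0] : Fin 3 → kk) (g3 c) := by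
  have : (ev2.comp CC.val) = (aeval (![0, 1, 0] : Fin 3 → kk)).comp g3 := by
    apply CC_hom_ext
    intro i
    rw [AlgHom.comp_apply]
    fin_cases i <;> simp [g3, mapC, coe_toCC, toP5, gens, ev2]
  exact DFunLike.congr_fun this c

theorem g3_ne (c : CC) (hc : c ∈ SS) : (g3 : CC →+* Q3) c ≠ 0 := by
  intro h
  have h' : g3 c = 0 := h
  apply hc.2
  rw [e2_eq, h', map_zero]

theorem g2_ne (c : CC) (hc : c ∈ SS) : (g2 : CC →+* Q3) c ≠ 0 := by
  intro h
  have h' : g2 c = 0 := h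
  apply g3_ne c hc
  change g3 c = 0
  rw [g3_eq, h', map_zero]

theorem g1_ne (c : CC) (hc : c ∈ SS) : (g1 : CC →+* Q3) c ≠ 0 := by
  intro h
  have h' : g1 c = 0 := h
  apply g2_ne c hc
  change g2 c = 0
  rw [g2_eq, h', map_zero]

noncomputable def p1 : Ideal AA := pr (g1 : CC →+* Q3) g1_ne
noncomputable def p2 : Ideal AA := pr (g2 : CC →+* Q3) g2_ne
noncomputable def p3 : Ideal AA := pr (g3 : CC →+* Q3) g3_ne

theorem p1_le_p2 : p1 ≤ p2 := pr_le _ _ _ _ (by
  intro c hc
  have h' : g1 c = 0 := hc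
  change g2 c = 0
  rw [g2_eq, h', map_zero])

theorem p2_le_p3 : p2 ≤ p3 := pr_le _ _ _ _ (by
  intro c hc
  have h' : g2 c = 0 := hc
  change g3 c = 0
  rw [g3_eq, h', map_zero])

/-- elements of the maximal ideal -/
noncomputable def uA : AA := ⟨uB, mem_AA_of_zero ε1_u ε2_u⟩
noncomputable def wA : AA := ⟨wB, mem_AA_of_zero ε1_w ε2_w⟩
noncomputable def sxA : AA := ⟨sB * xB, mem_AA_of_zero (by simp) (by simp)⟩
noncomputable def xxA : AA := ⟨xB * (1 - xB), mem_AA_of_zero (by simp) (by simp)⟩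
noncomputable def yxA : AA := ⟨(1 - xB) * yB + sB * xB, mem_AA_of_zero (by simp) (by simp)⟩

theorem p0_lt_p1 : (⊥ : Ideal AA) < p1 := by
  refine lt_of_le_of_ne bot_le ?_
  intro h
  have h1 : uA ∈ p1 := by
    rw [p1, mem_pr (c := uC) _ _ rfl]
    change g1 uC = 0
    simp [g1, mapC]
  rw [← h, Ideal.mem_bot] at h1
  have h2 : uB = 0 := congrArg Subtype.val h1
  have h3 : uC = 0 := CtoB_injective (by rw [map_zero]; exact h2)
  have h4 : (uC : P5) = 0 := congrArg Subtype.val h3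
  rw [coe_uC] at h4
  exact mul_ne_zero (X_ne_zero 1) (X_ne_zero 4) h4

theorem p1_lt_p2 : p1 < p2 := by
  refine lt_of_le_of_ne p1_le_p2 ?_
  intro h
  have h1 : wA ∈ p2 := by
    rw [p2, mem_pr (c := wC) _ _ rfl]
    change g2 wC = 0
    simp [g2, mapC]
  rw [← h, p1, mem_pr (c := wC) _ _ rfl] at h1
  have h2 : g1 wC = 0 := h1
  simp only [g1, mapC, AlgHom.comp_apply, Subalgebra.coe_val, coe_wC, map_mul, aeval_X] at h2
  simp at h2

theorem p2_lt_p3 : p2 < p3 := by
  refine lt_of_le_of_ne p2_le_p3 ?_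
  intro h
  have he : (sxA : BB) = algebraMap CC BB (sC * xC) := by
    rw [map_mul]; rfl
  have h1 : sxA ∈ p3 := by
    rw [p3, mem_pr _ _ he]
    change g3 (sC * xC) = 0
    simp [g3, mapC]
  rw [← h, p2, mem_pr _ _ he] at h1
  have h2 : g2 (sC * xC) = 0 := h1
  simp only [g2, mapC, AlgHom.comp_apply, Subalgebra.coe_val, coe_sC, coe_xC, map_mul,
    aeval_X] at h2
  simp at h2

theorem p3_lt_m : p3 < maximalIdeal AA := by
  refine lt_of_le_of_ne (IsLocalRing.le_maximalIdeal (pr_prime _ _).ne_top) ?_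
  intro h
  have he : (xxA : BB) = algebraMap CC BB (xC * (1 - xC)) := by
    simp only [map_mul, map_sub, map_one]; rfl
  have h1 : xxA ∈ maximalIdeal AA := by
    rw [mem_max]
    change ε1 (xB * (1 - xB)) = 0
    simp
  rw [← h, p3, mem_pr _ _ he] at h1
  have h2 : g3 (xC * (1 - xC)) = 0 := h1
  rw [map_mul] at h2
  have hx : g3 xC = X 1 := by simp [g3, mapC]
  rw [map_sub, map_one, hx] at h2
  rcases mul_eq_zero.1 h2 with h3 | h3
  · exact X_ne_zero 1 h3
  · have := congrArg (aeval (fun _ => (0 : kk))) h3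
    simp at this

end maps

theorem four_le_dim : ((4 : ℕ) : WithBot ℕ∞) ≤ ringKrullDim AA := by
  rw [ringKrullDim, Order.le_krullDim_iff]
  let f : Fin 5 → PrimeSpectrum AA :=
    ![⟨⊥, Ideal.isPrime_bot⟩, ⟨p1, pr_prime _ _⟩, ⟨p2, pr_prime _ _⟩, ⟨p3, pr_prime _ _⟩,
      ⟨maximalIdeal AA, inferInstance⟩]
  have hf : StrictMono f := by
    rw [Fin.strictMono_iff_lt_succ]
    intro i
    fin_cases i
    · exact p0_lt_p1
    · exact p1_lt_p2
    · exact p2_lt_p3
    · exact p3_lt_m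
  exact ⟨LTSeries.mk 4 f hf, rfl⟩

/-! ### upper bound -/

theorem max_minimal : maximalIdeal AA ∈
    (Ideal.span ({xxA, yxA, uA, wA} : Set AA)).minimalPrimes := by
  have hmem : ∀ z ∈ ({xxA, yxA, uA, wA} : Set AA), z ∈ maximalIdeal AA := by
    rintro z (rfl | rfl | rfl | rfl) <;> rw [mem_max]
    · change ε1 (xB * (1 - xB)) = 0
      simp
    · change ε1 ((1 - xB) * yB + sB * xB) = 0
      simp
    · exact ε1_u
    · exact ε1_w
  refine ⟨⟨inferInstance, Ideal.span_le.2 hmem⟩, ?_⟩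
  rintro p ⟨hp, hle⟩ _
  by_contra hcon
  have hne : p ≠ maximalIdeal AA := fun h => hcon (le_of_eq h.symm)
  obtain ⟨h, hinj, hA⟩ := exists_ext p hne
  let L := Localization.AtPrime p
  have hin : ∀ z ∈ ({xxA, yxA, uA, wA} : Set AA), h (z : BB) ∈ maximalIdeal L := by
    intro z hz
    rw [hA, IsLocalization.AtPrime.to_map_mem_maximal_iff L p]
    exact hle (Ideal.subset_span hz)
  have h1 : h (xB * (1 - xB)) ∈ maximalIdeal L := hin xxA (by simp)
  have h2 : h ((1 - xB) * yB + sB * xB) ∈ maximalIdeal L := hin yxA (by simp)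
  have h3 : h uB ∈ maximalIdeal L := hin uA (by simp)
  have h4 : h wB ∈ maximalIdeal L := hin wA (by simp)
  have hprime : (maximalIdeal L).IsPrime := inferInstance
  have hone : (1 : L) ∉ maximalIdeal L := fun h => hprime.ne_top (Ideal.eq_top_iff_one _ |>.2 h)
  -- either `m1` or `m2` is contained in the preimage
  have key : (∀ b ∈ RingHom.ker ε1, h b ∈ maximalIdeal L) ∨
      (∀ b ∈ RingHom.ker ε2, h b ∈ maximalIdeal L) := by
    rw [map_mul] at h1
    rcases hprime.mem_or_mem h1 with hx | hx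
    · left
      have hy : h yB ∈ maximalIdeal L := by
        have : h yB = h ((1 - xB) * yB + sB * xB) + (h yB - h sB) * h xB := by
          simp only [map_add, map_mul, map_sub, map_one]; ring
        rw [this]
        exact Ideal.add_mem _ h2 (Ideal.mul_mem_left _ _ hx)
      rw [ker_ε1]
      have : Ideal.span ({xB, yB, uB, wB} : Set BB) ≤ (maximalIdeal L).comap h := by
        rw [Ideal.span_le]
        rintro z (rfl | rfl | rfl | rfl)
        · exact hx
        · exact hy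
        · exact h3
        · exact h4
      exact fun b hb => this hb
    · right
      have hs : h (sB * xB) ∈ maximalIdeal L := by
        have : h (sB * xB) = h ((1 - xB) * yB + sB * xB) - h yB * h (1 - xB) := by
          simp only [map_add, map_mul, map_sub, map_one]; ring
        rw [this]
        exact Ideal.sub_mem _ h2 (Ideal.mul_mem_left _ _ hx)
      rw [ker_ε2]
      have : Ideal.span ({1 - xB, sB * xB, uB, wB} : Set BB) ≤ (maximalIdeal L).comap h := by
        rw [Ideal.span_le]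
        rintro z (rfl | rfl | rfl | rfl)
        · exact hx
        · exact hs
        · exact h3
        · exact h4
      exact fun b hb => this hb
  apply hcon
  intro a ha
  have hb := mem_JB.1 (mem_max_iff_JB.1 ha)
  have : h (a : BB) ∈ maximalIdeal L := by
    rcases key with hk | hk
    · exact hk _ hb.1
    · exact hk _ hb.2
  rwa [hA, IsLocalization.AtPrime.to_map_mem_maximal_iff L p] at this

theorem dim_AA : ringKrullDim AA = ((4 : ℕ) : WithBot ℕ∞) := by
  apply le_antisymm _ four_le_dim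
  rw [← IsLocalRing.maximalIdeal_height_eq_ringKrullDim]
  have h1 := Ideal.height_le_card_of_mem_minimalPrimes_span (Set.toFinite _) max_minimal
  have h2 : ({xxA, yxA, uA, wA} : Set AA).ncard ≤ 4 := by
    refine (Set.ncard_insert_le _ _).trans ?_
    have := (Set.ncard_insert_le yxA ({uA, wA} : Set AA))
    have := (Set.ncard_insert_le uA ({wA} : Set AA))
    have := Set.ncard_singleton wA
    omega
  have h3 : (maximalIdeal AA).height ≤ (4 : ℕ) := h1.trans (by exact_mod_cast h2)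
  exact WithBot.coe_le_coe.2 h3

end Pool.Agent.H59.NC
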