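import Mathlib

/-! Finite length of modules killed by powers of the elements of the maximal ideal. -/

set_option autoImplicit false

namespace Pool.Agent.H59.NC

open IsLocalRing

theorem length_lt_top_of_killed {A : Type*} [CommRing A] (m : Ideal A) [m.IsMaximal] (V : Type*)
    [AddCommGroup V] [Module A V] [Module.Finite A V] (h : ∀ a ∈ m, ∀ v : V, a • v = 0) :
    Module.length A V < ⊤ := by
  have ht : Module.IsTorsionBySet A V m := fun v a => h a.1 a.2 v
  let _ : Module (A ⧸ m) V := ht.module
  have : IsScalarTower A (A ⧸ m) V := ht.isScalarTower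
  have : Module.Finite (A ⧸ m) V := Module.Finite.of_restrictScalars_finite A _ V
  let _ : Field (A ⧸ m) := Ideal.Quotient.field m
  rw [Module.length_eq_of_surjective (R := A ⧸ m) (S := A) (M := V)
    Ideal.Quotient.mk_surjective]
  exact lt_top_iff_ne_top.2 Module.length_ne_top

theorem length_lt_top_of_pow {A : Type*} [CommRing A] [IsNoetherianRing A] (m : Ideal A)
    [m.IsMaximal] (k : ℕ) : ∀ (V : Type*) [AddCommGroup V] [Module A V] [Module.Finite A V],
    (∀ a ∈ m ^ k, ∀ v : V, a • v = 0) → Module.length A V < ⊤ := by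
  induction k with
  | zero =>
    intro V _ _ _ h
    have : Subsingleton V := ⟨fun a b => by
      have h1 := h 1 (by simp) a
      have h2 := h 1 (by simp) b
      rw [one_smul] at h1 h2
      rw [h1, h2]⟩
    rw [Module.length_eq_zero]
    exact ENat.natCast_lt_top 0
  | succ k ih =>
    intro V _ _ _ h
    let W : Submodule A V := m • (⊤ : Submodule A V)
    have h1 : Module.length A W < ⊤ := by
      apply ih
      rintro a ha ⟨w, hw⟩
      apply Subtype.ext
      change a • w = 0
      refine Submodule.smul_induction_on hw ?_ ?_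
      · intro b hb v _
        rw [smul_smul]
        exact h _ (by rw [pow_succ]; exact Ideal.mul_mem_mul ha hb) v
      · intro x y hx hy
        rw [smul_add, hx, hy, add_zero]
    have h2 : Module.length A (V ⧸ W) < ⊤ := by
      apply length_lt_top_of_killed m
      intro a ha v
      obtain ⟨v, rfl⟩ := Submodule.Quotient.mk_surjective _ v
      rw [← Submodule.Quotient.mk_smul, Submodule.Quotient.mk_eq_zero]
      exact Submodule.smul_mem_smul ha trivial
    have h3 : Module.length A V = Module.length A W + Module.length A (V ⧸ W) :=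
      Module.length_eq_add_of_exact W.subtype W.mkQ W.subtype_injective W.mkQ_surjective
        (LinearMap.exact_subtype_mkQ W)
    rw [h3]
    exact WithTop.add_lt_top.2 ⟨h1, h2⟩

/-- A finitely generated module over a Noetherian local ring such that every element of the
maximal ideal acts nilpotently has finite length. -/
theorem length_lt_top_of_nilp {A : Type*} [CommRing A] [IsLocalRing A] [IsNoetherianRing A]
    (V : Type*) [AddCommGroup V] [Module A V] [Module.Finite A V]
    (h : ∀ a ∈ maximalIdeal A, ∃ n : ℕ, ∀ v : V, a ^ n • v = 0) : Module.length A V < ⊤ := by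
  have hle : maximalIdeal A ≤ (Module.annihilator A V).radical := by
    intro a ha
    obtain ⟨n, hn⟩ := h a ha
    exact ⟨n, Module.mem_annihilator.2 hn⟩
  obtain ⟨k, hk⟩ := Ideal.exists_pow_le_of_le_radical_of_fg hle (IsNoetherian.noetherian _)
  exact length_lt_top_of_pow (maximalIdeal A) k V
    (fun a ha v => Module.mem_annihilator.1 (hk ha) v)

/-- the length of a homology module, computed by a map `φ` that is surjective on cycles and whose
kernel on cycles is the module of boundaries. -/
theorem length_homology {A : Type*} [CommRing A] {V0 V1 V2 H : Type*} [AddCommGroup V0]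
    [AddCommGroup V1] [AddCommGroup V2] [AddCommGroup H] [Module A V0] [Module A V1]
    [Module A V2] [Module A H] (f : V1 →ₗ[A] V0) (g : V2 →ₗ[A] V1) (φ : V1 →ₗ[A] H)
    (_hfg : ∀ z, f (g z) = 0) (hφg : ∀ z, φ (g z) = 0)
    (hex : ∀ v, f v = 0 → φ v = 0 → ∃ z, g z = v)
    (hsurj : ∀ h, ∃ v, f v = 0 ∧ φ v = h) :
    Module.length A ↥(Submodule.map (LinearMap.range g).mkQ (LinearMap.ker f)) =
      Module.length A H := by
  let K := LinearMap.ker f
  let α : K →ₗ[A] ↥(Submodule.map (LinearMap.range g).mkQ K) :=
    (LinearMap.range g).mkQ.submoduleMap K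
  let β : K →ₗ[A] H := φ.comp K.subtype
  have hα : Function.Surjective α := LinearMap.submoduleMap_surjective _ _
  have hβ : Function.Surjective β := by
    intro h
    obtain ⟨v, hv, rfl⟩ := hsurj h
    exact ⟨⟨v, hv⟩, rfl⟩
  have hker : LinearMap.ker α = LinearMap.ker β := by
    ext ⟨v, hv⟩
    have hv' : f v = 0 := hv
    rw [LinearMap.mem_ker, LinearMap.mem_ker]
    have h1 : α ⟨v, hv⟩ = 0 ↔ v ∈ LinearMap.range g := by
      rw [Subtype.ext_iff]
      change (LinearMap.range g).mkQ v = 0 ↔ _
      rw [Submodule.mkQ_apply, Submodule.Quotient.mk_eq_zero]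
    rw [h1]
    change _ ↔ φ v = 0
    constructor
    · rintro ⟨z, rfl⟩
      exact hφg z
    · intro h2
      obtain ⟨z, hz⟩ := hex v hv' h2
      exact ⟨z, hz⟩
  have e1 := (α.quotKerEquivOfSurjective hα).length_eq
  have e2 := (β.quotKerEquivOfSurjective hβ).length_eq
  rw [← e1, ← e2, hker]

end Pool.Agent.H59.NC
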