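import Mathlib

/-! A field `kk` with a ring homomorphism `kk[X] → kk` whose extension to `kk(X)` is an isomorphism. -/

set_option autoImplicit false

namespace Pool.Agent.H59.NC

open Polynomial

/-- The coefficient domain: polynomials in countably many variables over `ZMod 3`. -/
abbrev PP : Type := MvPolynomial ℕ (ZMod 3)

/-- The field of rational functions in countably many variables. -/
def kk : Type := FractionRing PP

noncomputable instance : Field kk := inferInstanceAs (Field (FractionRing PP))
noncomputable instance : Algebra PP kk := inferInstanceAs (Algebra PP (FractionRing PP))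
instance : IsFractionRing PP kk := inferInstanceAs (IsFractionRing PP (FractionRing PP))

/-- `PP[X] ≃ PP`. -/
noncomputable def ePP : Polynomial PP ≃+* PP :=
  ((MvPolynomial.optionEquivLeft (ZMod 3) ℕ).symm.toRingEquiv).trans
    (MvPolynomial.renameEquiv (ZMod 3) (Denumerable.eqv (Option ℕ))).toRingEquiv

attribute [local instance] Polynomial.algebra Polynomial.isLocalization

theorem exists_Phi : ∃ Φ : Polynomial kk →+* kk, Function.Injective Φ ∧
    ∀ c : kk, ∃ f g : Polynomial kk, Φ g ≠ 0 ∧ c * Φ g = Φ f := by
  have hloc : IsLocalization (Submonoid.map (C : PP →+* PP[X]) (nonZeroDivisors PP)) kk[X] :=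
    Polynomial.isLocalization _ _
  set j : PP[X] →+* kk := (algebraMap PP kk).comp (ePP : PP[X] →+* PP) with hj
  have jinj : Function.Injective j :=
    (IsFractionRing.injective PP kk).comp ePP.injective
  have hu : ∀ y : Submonoid.map (C : PP →+* PP[X]) (nonZeroDivisors PP), IsUnit (j y) := by
    rintro ⟨y, hy⟩
    obtain ⟨d, hd, rfl⟩ := Submonoid.mem_map.mp hy
    apply IsUnit.mk0
    intro h0
    have : (C d : PP[X]) = 0 := jinj (by simpa using h0)
    exact nonZeroDivisors.ne_zero hd (by simpa using this)
  refine ⟨IsLocalization.lift (M := Submonoid.map (C : PP →+* PP[X]) (nonZeroDivisors PP))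
    (S := kk[X]) hu, ?_, ?_⟩
  · rw [injective_iff_map_eq_zero]
    intro f hf
    obtain ⟨⟨g, d⟩, hgd⟩ := IsLocalization.surj
      (Submonoid.map (C : PP →+* PP[X]) (nonZeroDivisors PP)) f
    have h1 : j g = 0 := by
      have := congrArg (IsLocalization.lift (M := Submonoid.map (C : PP →+* PP[X])
        (nonZeroDivisors PP)) (S := kk[X]) hu) hgd
      rw [map_mul, hf, zero_mul, IsLocalization.lift_eq] at this
      exact this.symm
    have h2 : g = 0 := jinj (by simpa using h1)
    have h3 : (algebraMap PP[X] kk[X]) d ≠ 0 := by
      intro h0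
      have := hu d
      have h4 : (IsLocalization.lift (M := Submonoid.map (C : PP →+* PP[X])
        (nonZeroDivisors PP)) (S := kk[X]) hu) ((algebraMap PP[X] kk[X]) d) = 0 := by
        rw [h0, map_zero]
      rw [IsLocalization.lift_eq] at h4
      exact this.ne_zero h4
    rw [h2] at hgd
    simp only [map_zero] at hgd
    exact (mul_eq_zero.mp hgd).resolve_right h3
  · intro c
    obtain ⟨⟨a, b⟩, hab⟩ := IsLocalization.surj (nonZeroDivisors PP) c
    refine ⟨algebraMap PP[X] kk[X] (ePP.symm a), algebraMap PP[X] kk[X] (ePP.symm b), ?_, ?_⟩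
    · rw [IsLocalization.lift_eq]
      intro h0
      have : j (ePP.symm b) = algebraMap PP kk b := by simp [hj]
      rw [this] at h0
      exact nonZeroDivisors.ne_zero b.2 (IsFractionRing.injective PP kk (by simpa using h0))
    · rw [IsLocalization.lift_eq, IsLocalization.lift_eq]
      have h1 : j (ePP.symm b) = algebraMap PP kk b := by simp [hj]
      have h2 : j (ePP.symm a) = algebraMap PP kk a := by simp [hj]
      rw [h1, h2]
      exact hab

/-- the chosen homomorphism `kk[X] → kk`. -/
noncomputable def Phi : Polynomial kk →+* kk := exists_Phi.choose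

theorem Phi_injective : Function.Injective Phi := exists_Phi.choose_spec.1

theorem Phi_surj (c : kk) : ∃ f g : Polynomial kk, Phi g ≠ 0 ∧ c * Phi g = Phi f :=
  exists_Phi.choose_spec.2 c

end Pool.Agent.H59.NC
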