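import Pool.Agent.H59.NC.Ring

/-! `AA` is Noetherian. -/

set_option autoImplicit false

namespace Pool.Agent.H59.NC

theorem isNoetherian_of_killed {A : Type*} [CommRing A] (m : Ideal A) [m.IsMaximal] (V : Type*)
    [AddCommGroup V] [Module A V] [Module.Finite A V] (h : ∀ a ∈ m, ∀ v : V, a • v = 0) :
    IsNoetherian A V := by
  have ht : Module.IsTorsionBySet A V m := fun v a => h a.1 a.2 v
  let : Module (A ⧸ m) V := ht.module
  have : IsScalarTower A (A ⧸ m) V := ht.isScalarTower
  have : Module.Finite (A ⧸ m) V := Module.Finite.of_restrictScalars_finite A _ V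
  let : Field (A ⧸ m) := Ideal.Quotient.field m
  have : IsNoetherian (A ⧸ m) V := inferInstance
  rw [isNoetherian_def]
  intro N
  let N' : Submodule (A ⧸ m) V :=
    { carrier := N
      add_mem' := fun ha hb => N.add_mem ha hb
      zero_mem' := N.zero_mem
      smul_mem' := by
        intro c v hv
        obtain ⟨a, rfl⟩ := Ideal.Quotient.mk_surjective c
        exact N.smul_mem a hv }
  obtain ⟨t, ht⟩ := IsNoetherian.noetherian N'
  refine ⟨t, ?_⟩
  have h1 := Submodule.restrictScalars_span A (A ⧸ m) Ideal.Quotient.mk_surjective (t : Set V)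
  rw [← h1, ht]
  rfl

instance : Module.Finite AA BB := by
  refine ⟨Submodule.fg_def.2 ⟨{1, xB}, by simp, ?_⟩⟩
  rw [eq_top_iff]
  intro b _
  obtain ⟨a, a', h⟩ := BB_eq b
  rw [h]
  refine Submodule.add_mem _ ?_ ?_
  · have : (a : BB) = a • (1 : BB) := by rw [Subring.smul_def, smul_eq_mul, mul_one]
    rw [this]
    exact Submodule.smul_mem _ _ (Submodule.subset_span (by simp))
  · have : (a' : BB) * xB = a' • xB := by rw [Subring.smul_def, smul_eq_mul]
    rw [this]
    exact Submodule.smul_mem _ _ (Submodule.subset_span (by simp))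

/-- the ideal of `BB` of elements vanishing at both points. -/
noncomputable def JB : Ideal BB := RingHom.ker ε1 ⊓ RingHom.ker ε2

theorem mem_JB {b : BB} : b ∈ JB ↔ ε1 b = 0 ∧ ε2 b = 0 := by
  simp [JB, RingHom.mem_ker]

theorem mem_AA_of_JB {b : BB} (h : b ∈ JB) : b ∈ AA :=
  mem_AA_of_zero (mem_JB.1 h).1 (mem_JB.1 h).2

theorem mem_max_iff_JB {a : AA} : a ∈ IsLocalRing.maximalIdeal AA ↔ (a : BB) ∈ JB := by
  rw [mem_max, mem_JB]
  constructor
  · intro h
    exact ⟨h, by rw [← εA_apply']; exact h⟩
  · intro h
    exact h.1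

theorem isNoetherian_AA_BB : IsNoetherian AA BB := by
  rw [isNoetherian_def]
  intro N
  let I : Ideal BB := Ideal.span (N : Set BB)
  let JI : Submodule AA BB := (JB * I).restrictScalars AA
  have hfg : ∀ K : Ideal BB, (K.restrictScalars AA : Submodule AA BB).FG := by
    intro K
    have : Module.Finite BB K := Module.Finite.iff_fg.2 (IsNoetherian.noetherian K)
    have : Module.Finite AA K := Module.Finite.trans BB K
    exact Module.Finite.iff_fg.1 (inferInstanceAs (Module.Finite AA K))
  have hJN : JI ≤ N := by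
    intro z hz
    have hz' : z ∈ JB * I := hz
    refine Submodule.mul_induction_on hz' ?_ ?_
    · intro j hj n hn
      refine Submodule.span_induction (p := fun n _ => j * n ∈ N) ?_ ?_ ?_ ?_ hn
      · intro n hn
        exact N.smul_mem (⟨j, mem_AA_of_JB hj⟩ : AA) hn
      · simp
      · intro a b _ _ ha hb
        rw [mul_add]; exact N.add_mem ha hb
      · intro b n hn' hn
        -- `j * (b * n)` with `j*b` again in `JB`
        have : ∀ (j : BB), j ∈ JB → ∀ n ∈ I, j * n ∈ N := by
          intro j hj n hn
          refine Submodule.span_induction (p := fun n _ => ∀ j ∈ JB, j * n ∈ N) ?_ ?_ ?_ ?_ hn j hj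
          · intro n hn j hj
            exact N.smul_mem (⟨j, mem_AA_of_JB hj⟩ : AA) hn
          · simp
          · intro a b _ _ ha hb j hj
            rw [mul_add]; exact N.add_mem (ha j hj) (hb j hj)
          · intro b n _ hn j hj
            rw [smul_eq_mul, ← mul_assoc]
            exact hn _ (Ideal.mul_mem_right _ _ hj)
        rw [smul_eq_mul, ← mul_assoc]
        exact this _ (Ideal.mul_mem_right _ _ hj) n hn'
    · intro a b ha hb
      exact N.add_mem ha hb
  have hNI : N ≤ I.restrictScalars AA := fun n hn => Ideal.subset_span hn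
  refine Submodule.fg_of_fg_map_of_fg_inf_ker (JI.mkQ) ?_ ?_
  · -- the image in the quotient
    let V : Submodule AA (BB ⧸ JI) := (I.restrictScalars AA).map JI.mkQ
    have : Module.Finite AA V := Module.Finite.iff_fg.2 ((hfg I).map _)
    have : IsNoetherian AA V := by
      refine isNoetherian_of_killed (IsLocalRing.maximalIdeal AA) V ?_
      rintro a ha ⟨v, hv⟩
      obtain ⟨i, hi, rfl⟩ := Submodule.mem_map.1 hv
      apply Subtype.ext
      have : a • JI.mkQ i = JI.mkQ (a • i) := rfl
      change a • JI.mkQ i = 0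
      rw [this, Submodule.mkQ_apply, Submodule.Quotient.mk_eq_zero]
      exact Ideal.mul_mem_mul (mem_max_iff_JB.1 ha) hi
    have hle : N.map JI.mkQ ≤ V := Submodule.map_mono hNI
    have := isNoetherian_of_le hle
    exact Module.Finite.iff_fg.1 inferInstance
  · have : N ⊓ LinearMap.ker JI.mkQ = JI := by
      rw [Submodule.ker_mkQ]
      exact inf_eq_right.2 hJN
    rw [this]
    exact hfg _

instance : IsNoetherianRing AA := by
  have := isNoetherian_AA_BB
  let f : AA →ₗ[AA] BB := (Algebra.linearMap AA BB)
  exact isNoetherian_of_injective (P := BB) f Subtype.val_injective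

end Pool.Agent.H59.NC
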