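import Pool.Agent.H59.NC.Noeth

/-! `AA` is regular off its maximal ideal. -/

set_option autoImplicit false

namespace Pool.Agent.H59.NC

open IsLocalRing

theorem regular_of_chart {R C L : Type*} [CommRing R] [IsRegularRing R] [CommRing C] [CommRing L]
    [IsLocalRing L] (f : R →+* C) (h : C →+* L) (hf : Function.Injective f)
    (hh : Function.Injective h) (v : R) (hv : IsUnit (h (f v)))
    (hchart : ∀ c : C, ∃ (n : ℕ) (r : R), f v ^ n * c = f r)
    (hsurj : ∀ l : L, ∃ c t : C, IsUnit (h t) ∧ l * h t = h c) : IsRegularLocalRing L := by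
  let _ : Algebra R L := (h.comp f).toAlgebra
  have halg : ∀ r, algebraMap R L r = h (f r) := fun _ => rfl
  let q : Ideal R := (maximalIdeal L).comap (h.comp f)
  have hq : ∀ r, r ∉ q ↔ IsUnit (h (f r)) := by
    intro r
    change ¬ (h (f r) ∈ maximalIdeal L) ↔ _
    rw [IsLocalRing.mem_maximalIdeal, mem_nonunits_iff, not_not]
  have hloc : IsLocalization q.primeCompl L := by
    rw [isLocalization_iff]
    refine ⟨?_, ?_, ?_⟩
    · intro y
      exact (hq y).1 y.2
    · intro l
      obtain ⟨c, t, ht, hl⟩ := hsurj l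
      obtain ⟨n, r, hr⟩ := hchart t
      obtain ⟨n', r', hr'⟩ := hchart c
      have hu : IsUnit (h (f (v ^ n' * r))) := by
        rw [map_mul, map_pow, map_mul, map_pow, ← hr, map_mul, map_pow]
        exact (hv.pow _).mul ((hv.pow _).mul ht)
      refine ⟨⟨v ^ n * r', ⟨v ^ n' * r, (hq _).2 hu⟩⟩, ?_⟩
      change l * h (f (v ^ n' * r)) = h (f (v ^ n * r'))
      rw [map_mul, map_pow, map_mul, map_pow, ← hr, map_mul, map_pow, map_mul, map_pow, map_mul,
        map_pow, ← hr', map_mul, map_pow, ← hl]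
      ring
    · intro x y hxy
      refine ⟨1, ?_⟩
      rw [hf (hh hxy)]
  have hloc' : IsLocalization.AtPrime L q := hloc
  let e : Localization.AtPrime q ≃ₐ[R] L := IsLocalization.algEquiv q.primeCompl _ _
  exact IsRegularLocalRing.of_ringEquiv e.toRingEquiv

/-- the regular ring of a chart -/
abbrev R4 : Type := MvPolynomial (Fin 4) kk

theorem chart_of (f : R4 →ₐ[kk] CC) (v : R4)
    (hgen : ∀ i : Fin 5, ∃ (n : ℕ) (r : R4), f v ^ n * toCC (MvPolynomial.X i) = f r) (c : CC) :
    ∃ (n : ℕ) (r : R4), f v ^ n * c = f r := by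
  obtain ⟨F, rfl⟩ := toCC_surjective c
  induction F using MvPolynomial.induction_on with
  | C a =>
    refine ⟨0, MvPolynomial.C a, ?_⟩
    have h1 : toCC (MvPolynomial.C a) = algebraMap kk CC a := toCC.commutes a
    have h2 : f (MvPolynomial.C a) = algebraMap kk CC a := f.commutes a
    rw [h1, h2, pow_zero, one_mul]
  | add p q hp hq =>
    obtain ⟨n, r, h⟩ := hp
    obtain ⟨n', r', h'⟩ := hq
    refine ⟨n + n', v ^ n' * r + v ^ n * r', ?_⟩
    rw [map_add, map_add, map_mul, map_mul, map_pow, map_pow, ← h, ← h']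
    ring
  | mul_X p i hp =>
    obtain ⟨n, r, h⟩ := hp
    obtain ⟨n', r', h'⟩ := hgen i
    refine ⟨n + n', r * r', ?_⟩
    rw [map_mul, map_mul, ← h, ← h']
    ring

open MvPolynomial in
/-- general construction of a chart: `c1 * c4 = c2 * c3` with `{c1,c2,c3,c4} = {x,y,u,w}`. -/
theorem chart_gen (c1 c2 c3 c4 : CC) (hc : c1 * c4 = c2 * c3)
    (g : P5 →ₐ[kk] FractionRing R4)
    (gs : g (sC : P5) = algebraMap R4 _ (X 0)) (g1 : g (c1 : P5) = algebraMap R4 _ (X 1))
    (g2 : g (c2 : P5) = algebraMap R4 _ (X 2)) (g3 : g (c3 : P5) = algebraMap R4 _ (X 3))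
    (hall : ∀ i : Fin 5, toCC (X i) = sC ∨ toCC (X i) = c1 ∨ toCC (X i) = c2 ∨ toCC (X i) = c3 ∨
      toCC (X i) = c4) :
    ∃ (f : R4 →ₐ[kk] CC) (v : R4), f v = c1 ∧ Function.Injective f ∧
      ∀ c : CC, ∃ (n : ℕ) (r : R4), f v ^ n * c = f r := by
  let f : R4 →ₐ[kk] CC := aeval ![sC, c1, c2, c3]
  have f0 : f (X 0) = sC := by simp [f]
  have f1 : f (X 1) = c1 := by simp [f]
  have f2 : f (X 2) = c2 := by simp [f]
  have f3 : f (X 3) = c3 := by simp [f]
  refine ⟨f, X 1, f1, ?_, ?_⟩
  · have hcomp : (g.comp CC.val).comp f = Algebra.algHom kk R4 (FractionRing R4) := by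
      apply MvPolynomial.algHom_ext
      intro i
      rw [AlgHom.comp_apply, AlgHom.comp_apply]
      fin_cases i
      · change g (CC.val (f (X 0))) = algebraMap _ _ (X 0)
        rw [f0]; exact gs
      · change g (CC.val (f (X 1))) = algebraMap _ _ (X 1)
        rw [f1]; exact g1
      · change g (CC.val (f (X 2))) = algebraMap _ _ (X 2)
        rw [f2]; exact g2
      · change g (CC.val (f (X 3))) = algebraMap _ _ (X 3)
        rw [f3]; exact g3
    intro a b hab
    have h1 : ((g.comp CC.val).comp f) a = ((g.comp CC.val).comp f) b :=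
      congrArg (fun z => g (CC.val z)) hab
    rw [hcomp] at h1
    exact IsFractionRing.injective R4 (FractionRing R4) h1
  · apply chart_of
    intro i
    rcases hall i with h | h | h | h | h
    · exact ⟨0, X 0, by rw [h, f0, pow_zero, one_mul]⟩
    · exact ⟨0, X 1, by rw [h, f1, pow_zero, one_mul]⟩
    · exact ⟨0, X 2, by rw [h, f2, pow_zero, one_mul]⟩
    · exact ⟨0, X 3, by rw [h, f3, pow_zero, one_mul]⟩
    · refine ⟨1, X 2 * X 3, ?_⟩
      rw [h, f1, map_mul, f2, f3, pow_one, hc]

open MvPolynomial in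
theorem chart_x : ∃ (f : R4 →ₐ[kk] CC) (v : R4), f v = xC ∧ Function.Injective f ∧
      ∀ c : CC, ∃ (n : ℕ) (r : R4), f v ^ n * c = f r := by
  have hX : algebraMap R4 (FractionRing R4) (X 1) ≠ 0 := by
    rw [Ne, FaithfulSMul.algebraMap_eq_zero_iff]
    exact X_ne_zero 1
  refine chart_gen xC uC wC yC xy_C
    (aeval ![algebraMap R4 _ (X 0), 1, algebraMap R4 _ (X 3) / algebraMap R4 _ (X 1),
      algebraMap R4 _ (X 1), algebraMap R4 _ (X 2)]) ?_ ?_ ?_ ?_ ?_
  · simp
  · simp
  · simp
  · simp only [coe_wC, map_mul, aeval_X]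
    simp [hX]
  · intro i
    fin_cases i
    · exact Or.inl rfl
    · exact Or.inr (Or.inl rfl)
    · exact Or.inr (Or.inr (Or.inr (Or.inr rfl)))
    · exact Or.inr (Or.inr (Or.inl rfl))
    · exact Or.inr (Or.inr (Or.inr (Or.inl rfl)))

open MvPolynomial in
theorem chart_y : ∃ (f : R4 →ₐ[kk] CC) (v : R4), f v = yC ∧ Function.Injective f ∧
      ∀ c : CC, ∃ (n : ℕ) (r : R4), f v ^ n * c = f r := by
  have hX : algebraMap R4 (FractionRing R4) (X 1) ≠ 0 := by
    rw [Ne, FaithfulSMul.algebraMap_eq_zero_iff]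
    exact X_ne_zero 1
  refine chart_gen yC wC uC xC (by rw [mul_comm, xy_C, mul_comm])
    (aeval ![algebraMap R4 _ (X 0), algebraMap R4 _ (X 3) / algebraMap R4 _ (X 1), 1,
      algebraMap R4 _ (X 2), algebraMap R4 _ (X 1)]) ?_ ?_ ?_ ?_ ?_
  · simp
  · simp
  · simp
  · simp only [coe_uC, map_mul, aeval_X]
    simp [hX]
  · intro i
    fin_cases i
    · exact Or.inl rfl
    · exact Or.inr (Or.inr (Or.inr (Or.inr rfl)))
    · exact Or.inr (Or.inl rfl)
    · exact Or.inr (Or.inr (Or.inr (Or.inl rfl)))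
    · exact Or.inr (Or.inr (Or.inl rfl))

open MvPolynomial in
theorem chart_u : ∃ (f : R4 →ₐ[kk] CC) (v : R4), f v = uC ∧ Function.Injective f ∧
      ∀ c : CC, ∃ (n : ℕ) (r : R4), f v ^ n * c = f r := by
  have hX : algebraMap R4 (FractionRing R4) (X 1) ≠ 0 := by
    rw [Ne, FaithfulSMul.algebraMap_eq_zero_iff]
    exact X_ne_zero 1
  refine chart_gen uC xC yC wC (by rw [xy_C])
    (aeval ![algebraMap R4 _ (X 0), 1, algebraMap R4 _ (X 3) / algebraMap R4 _ (X 1),
      algebraMap R4 _ (X 2), algebraMap R4 _ (X 1)]) ?_ ?_ ?_ ?_ ?_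
  · simp
  · simp
  · simp
  · simp only [coe_yC, map_mul, aeval_X]
    simp [hX]
  · intro i
    fin_cases i
    · exact Or.inl rfl
    · exact Or.inr (Or.inr (Or.inl rfl))
    · exact Or.inr (Or.inr (Or.inr (Or.inl rfl)))
    · exact Or.inr (Or.inl rfl)
    · exact Or.inr (Or.inr (Or.inr (Or.inr rfl)))

open MvPolynomial in
theorem chart_w : ∃ (f : R4 →ₐ[kk] CC) (v : R4), f v = wC ∧ Function.Injective f ∧
      ∀ c : CC, ∃ (n : ℕ) (r : R4), f v ^ n * c = f r := by
  have hX : algebraMap R4 (FractionRing R4) (X 1) ≠ 0 := by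
    rw [Ne, FaithfulSMul.algebraMap_eq_zero_iff]
    exact X_ne_zero 1
  refine chart_gen wC yC xC uC (by rw [mul_comm, ← xy_C, mul_comm])
    (aeval ![algebraMap R4 _ (X 0), algebraMap R4 _ (X 3) / algebraMap R4 _ (X 1), 1,
      algebraMap R4 _ (X 1), algebraMap R4 _ (X 2)]) ?_ ?_ ?_ ?_ ?_
  · simp
  · simp
  · simp
  · simp only [coe_xC, map_mul, aeval_X]
    simp [hX]
  · intro i
    fin_cases i
    · exact Or.inl rfl
    · exact Or.inr (Or.inr (Or.inr (Or.inl rfl)))
    · exact Or.inr (Or.inr (Or.inl rfl))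
    · exact Or.inr (Or.inr (Or.inr (Or.inr rfl)))
    · exact Or.inr (Or.inl rfl)

/-! ### the extension `BB → A_p` -/

/-- For a prime `p` other than the maximal ideal, `BB` maps to `A_p`. -/
theorem exists_ext (p : Ideal AA) [p.IsPrime] (hp : p ≠ maximalIdeal AA) :
    ∃ h : BB →+* Localization.AtPrime p, Function.Injective h ∧
      ∀ a : AA, h a = algebraMap AA (Localization.AtPrime p) a := by
  obtain ⟨j, hj, hjp⟩ : ∃ j ∈ maximalIdeal AA, j ∉ p := by
    by_contra hcon
    push Not at hcon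
    exact hp (le_antisymm (IsLocalRing.le_maximalIdeal (Ideal.IsPrime.ne_top inferInstance)) hcon)
  have hjB : (j : BB) ∈ JB := mem_max_iff_JB.1 hj
  have hj0 : (j : BB) ≠ 0 := by
    intro h0
    apply hjp
    have : j = 0 := Subtype.ext h0
    rw [this]; exact p.zero_mem
  let m : BB → AA := fun b => ⟨j * b, mem_AA_of_JB (Ideal.mul_mem_right _ _ hjB)⟩
  obtain ⟨v, hv⟩ := IsLocalization.map_units (Localization.AtPrime p) (⟨j, hjp⟩ : p.primeCompl)
  have hvj : (v : Localization.AtPrime p) = algebraMap AA _ j := hv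
  let g := algebraMap AA (Localization.AtPrime p)
  have ginj : Function.Injective g :=
    IsLocalization.injective _ (Ideal.primeCompl_le_nonZeroDivisors p)
  let h : BB →+* Localization.AtPrime p :=
    { toFun := fun b => g (m b) * ↑v⁻¹
      map_one' := by
        have : m 1 = j := Subtype.ext (mul_one _)
        rw [this, ← hvj]
        simp
      map_mul' := by
        intro b c
        have h1 : m (b * c) * j = m b * m c := by
          apply Subtype.ext
          simp only [m, Subring.coe_mul]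
          ring
        have h2 : g (m (b * c)) * v = g (m b) * g (m c) := by
          rw [hvj, ← map_mul, h1, map_mul]
        calc g (m (b * c)) * ↑v⁻¹ = g (m (b * c)) * v * ↑v⁻¹ * ↑v⁻¹ := by
              rw [mul_assoc (g (m (b * c))) (v : Localization.AtPrime p), Units.mul_inv, mul_one]
          _ = g (m b) * ↑v⁻¹ * (g (m c) * ↑v⁻¹) := by rw [h2]; ring
      map_zero' := by
        have : m 0 = 0 := Subtype.ext (mul_zero _)
        rw [this, map_zero, zero_mul]
      map_add' := by
        intro b c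
        have : m (b + c) = m b + m c := Subtype.ext (mul_add _ _ _)
        rw [this, map_add, add_mul] }
  refine ⟨h, ?_, ?_⟩
  · rw [injective_iff_map_eq_zero]
    intro b hb
    have h1 : g (m b) * ↑v⁻¹ = 0 := hb
    have h2 : g (m b) = 0 := by
      rwa [Units.mul_left_eq_zero] at h1
    have h3 : m b = 0 := ginj (by rw [h2, map_zero])
    have h4 : (j : BB) * b = 0 := congrArg Subtype.val h3
    exact (mul_eq_zero.1 h4).resolve_left hj0
  · intro a
    have h1 : m a = j * a := Subtype.ext rfl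
    change g (m a) * ↑v⁻¹ = g a
    rw [h1, map_mul, ← hvj, mul_comm (v : Localization.AtPrime p), mul_assoc, Units.mul_inv,
      mul_one]

theorem regular_AA (p : Ideal AA) [p.IsPrime] (hp : p ≠ maximalIdeal AA) :
    IsRegularLocalRing (Localization.AtPrime p) := by
  obtain ⟨h, hinj, hA⟩ := exists_ext p hp
  have hsurj : ∀ l : Localization.AtPrime p, ∃ c t : CC,
      IsUnit (h (algebraMap CC BB t)) ∧ l * h (algebraMap CC BB t) = h (algebraMap CC BB c) := by
    intro l
    obtain ⟨⟨a, t⟩, hl⟩ := IsLocalization.surj p.primeCompl l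
    have htu : IsUnit (h ((t : AA) : BB)) := by
      rw [hA]; exact IsLocalization.map_units _ t
    obtain ⟨ca, sa, hsa, ha⟩ := surj_B (a : BB)
    obtain ⟨ct, st, hst, ht⟩ := surj_B ((t : AA) : BB)
    have usa : IsUnit (h (algebraMap CC BB sa)) := (isUnit_of_mem_SS hsa).map h
    have ust : IsUnit (h (algebraMap CC BB st)) := (isUnit_of_mem_SS hst).map h
    refine ⟨ca * st, sa * ct, ?_, ?_⟩
    · rw [map_mul, map_mul, ← ht, map_mul]
      exact usa.mul (htu.mul ust)
    · have hl' : l * h ((t : AA) : BB) = h (a : BB) := by rw [hA, hA]; exact hl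
      simp only [map_mul]
      rw [← ht, ← ha, map_mul, map_mul, ← hl']
      ring
  have hunit : IsUnit (h xB) ∨ IsUnit (h yB) ∨ IsUnit (h uB) ∨ IsUnit (h wB) := by
    by_contra hcon
    push Not at hcon
    obtain ⟨hx, hy, hu, hw⟩ := hcon
    apply hp
    refine le_antisymm (IsLocalRing.le_maximalIdeal (Ideal.IsPrime.ne_top inferInstance)) ?_
    intro a ha
    have h1 : (a : BB) ∈ RingHom.ker ε1 := (mem_JB.1 (mem_max_iff_JB.1 ha)).1
    rw [ker_ε1] at h1
    have h2 : Ideal.span ({xB, yB, uB, wB} : Set BB) ≤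
        (maximalIdeal (Localization.AtPrime p)).comap h := by
      rw [Ideal.span_le]
      rintro z (rfl | rfl | rfl | rfl)
      · exact hx
      · exact hy
      · exact hu
      · exact hw
    have h3 : h (a : BB) ∈ maximalIdeal (Localization.AtPrime p) := h2 h1
    rw [hA, IsLocalization.AtPrime.to_map_mem_maximal_iff (Localization.AtPrime p) p] at h3
    exact h3
  have hinj' : Function.Injective (h.comp (algebraMap CC BB)) := hinj.comp CtoB_injective
  have fin : ∀ c1 : CC, (∃ (f : R4 →ₐ[kk] CC) (v : R4), f v = c1 ∧ Function.Injective f ∧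
      ∀ c : CC, ∃ (n : ℕ) (r : R4), f v ^ n * c = f r) → IsUnit (h (algebraMap CC BB c1)) →
      IsRegularLocalRing (Localization.AtPrime p) := by
    rintro c1 ⟨f, v, hv, hf, hch⟩ hu
    refine regular_of_chart (f : R4 →+* CC) (h.comp (algebraMap CC BB)) hf hinj' v ?_ hch hsurj
    change IsUnit (h (algebraMap CC BB (f v)))
    rw [hv]; exact hu
  rcases hunit with hu | hu | hu | hu
  · exact fin _ chart_x hu
  · exact fin _ chart_y hu
  · exact fin _ chart_u hu
  · exact fin _ chart_w hu

/-- `AA` is regular off the maximal ideal, in the form of the frozen statement. -/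
theorem regular_frozen (p : Ideal AA) [p.IsPrime] (hp : p ≠ maximalIdeal AA) :
    ∃ s : Finset (Localization.AtPrime p),
      Ideal.span (s : Set (Localization.AtPrime p)) = maximalIdeal (Localization.AtPrime p) ∧
        (s.card : WithBot ℕ∞) ≤ ringKrullDim (Localization.AtPrime p) := by
  have := regular_AA p hp
  obtain ⟨s, hs, hc⟩ := Submodule.FG.exists_span_finset_card_eq_spanFinrank
    (IsNoetherian.noetherian (maximalIdeal (Localization.AtPrime p)))
  refine ⟨s, hc, ?_⟩
  rw [← IsRegularLocalRing.spanFinrank_maximalIdeal, hs]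

end Pool.Agent.H59.NC
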