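import Pool.Agent.H59.NC.Fld

/-! The rings `CC ⊂ kk[s,a,b,p,q]`, its semilocalisation `BB`, and the pinched ring `AA ⊂ BB`. -/

set_option autoImplicit false

namespace Pool.Agent.H59.NC

open MvPolynomial

/-- the polynomial ring `kk[s,a,b,p,q]` -/
abbrev P5 : Type := MvPolynomial (Fin 5) kk

/-- the generators `s, x = ap, y = bq, u = aq, w = bp` -/
noncomputable def gens : Fin 5 → P5 := ![X 0, X 1 * X 3, X 2 * X 4, X 1 * X 4, X 2 * X 3]

/-- `kk[s,x,y,u,w] → kk[s,a,b,p,q]` -/
noncomputable def toP5 : MvPolynomial (Fin 5) kk →ₐ[kk] P5 := aeval gens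

/-- the subalgebra generated by `s, x, y, u, w`. -/
noncomputable def CC : Subalgebra kk P5 := toP5.range

/-- `kk[s,x,y,u,w] → CC` -/
noncomputable def toCC : MvPolynomial (Fin 5) kk →ₐ[kk] CC := toP5.rangeRestrict

theorem toCC_surjective : Function.Surjective toCC := toP5.rangeRestrict_surjective

theorem coe_toCC (f : MvPolynomial (Fin 5) kk) : ((toCC f : CC) : P5) = toP5 f := rfl

noncomputable def sC : CC := toCC (X 0)
noncomputable def xC : CC := toCC (X 1)
noncomputable def yC : CC := toCC (X 2)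
noncomputable def uC : CC := toCC (X 3)
noncomputable def wC : CC := toCC (X 4)

@[simp] theorem coe_sC : (sC : P5) = X 0 := by simp [sC, coe_toCC, toP5, gens]
@[simp] theorem coe_xC : (xC : P5) = X 1 * X 3 := by simp [xC, coe_toCC, toP5, gens]
@[simp] theorem coe_yC : (yC : P5) = X 2 * X 4 := by simp [yC, coe_toCC, toP5, gens]
@[simp] theorem coe_uC : (uC : P5) = X 1 * X 4 := by simp [uC, coe_toCC, toP5, gens]
@[simp] theorem coe_wC : (wC : P5) = X 2 * X 3 := by simp [wC, coe_toCC, toP5, gens]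

theorem xy_C : xC * yC = uC * wC := by
  apply Subtype.ext
  simp only [Subalgebra.coe_mul, coe_xC, coe_yC, coe_uC, coe_wC]
  ring

instance : IsNoetherianRing CC :=
  isNoetherianRing_of_surjective _ _ (toCC : MvPolynomial (Fin 5) kk →+* CC) toCC_surjective

/-- evaluation at the first point, on `kk[s,a,b,p,q]`, with values in `kk[s]`. -/
noncomputable def evs : P5 →ₐ[kk] Polynomial kk := aeval ![Polynomial.X, 0, 0, 0, 0]

noncomputable def ev1 : P5 →+* kk := Phi.comp (evs : P5 →+* Polynomial kk)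

noncomputable def ev2 : P5 →ₐ[kk] kk := aeval ![0, 1, 0, 1, 0]

noncomputable def e1 : CC →+* kk := ev1.comp (CC.val : CC →+* P5)

noncomputable def e2 : CC →+* kk := (ev2 : P5 →+* kk).comp (CC.val : CC →+* P5)

theorem e1_apply (c : CC) : e1 c = Phi (evs c) := rfl
theorem e2_apply (c : CC) : e2 c = ev2 c := rfl

@[simp] theorem e1_x : e1 xC = 0 := by simp [e1_apply, evs]
@[simp] theorem e1_y : e1 yC = 0 := by simp [e1_apply, evs]
@[simp] theorem e1_u : e1 uC = 0 := by simp [e1_apply, evs]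
@[simp] theorem e1_w : e1 wC = 0 := by simp [e1_apply, evs]
@[simp] theorem e1_s : e1 sC = Phi Polynomial.X := by simp [e1_apply, evs]
@[simp] theorem e2_x : e2 xC = 1 := by simp [e2_apply, ev2]
@[simp] theorem e2_y : e2 yC = 0 := by simp [e2_apply, ev2]
@[simp] theorem e2_u : e2 uC = 0 := by simp [e2_apply, ev2]
@[simp] theorem e2_w : e2 wC = 0 := by simp [e2_apply, ev2]
@[simp] theorem e2_s : e2 sC = 0 := by simp [e2_apply, ev2]

@[simp] theorem e2_algebraMap (c : kk) : e2 (algebraMap kk CC c) = c := by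
  simp only [e2_apply, Subalgebra.coe_algebraMap]
  exact ev2.commutes c

/-- constants in `kk[s]` as elements of `CC` -/
noncomputable def polyC : Polynomial kk →ₐ[kk] CC := Polynomial.aeval sC

theorem e1_polyC (f : Polynomial kk) : e1 (polyC f) = Phi f := by
  rw [e1_apply]
  congr 1
  have : (evs.comp (CC.val)).comp polyC = AlgHom.id kk _ := by
    apply Polynomial.algHom_ext
    simp [polyC, evs]
  exact DFunLike.congr_fun this f

/-- the multiplicative set of the semilocalisation -/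
def SS : Submonoid CC where
  carrier := {c | e1 c ≠ 0 ∧ e2 c ≠ 0}
  mul_mem' := by
    rintro a b ⟨ha, ha'⟩ ⟨hb, hb'⟩
    exact ⟨by rw [map_mul]; exact mul_ne_zero ha hb, by rw [map_mul]; exact mul_ne_zero ha' hb'⟩
  one_mem' := by simp

theorem mem_SS {c : CC} : c ∈ SS ↔ e1 c ≠ 0 ∧ e2 c ≠ 0 := Iff.rfl

theorem SS_le : SS ≤ nonZeroDivisors CC := by
  intro c hc
  rw [mem_nonZeroDivisors_iff_ne_zero]
  rintro rfl
  exact hc.1 (map_zero _)

/-- the semilocal ring -/
def BB : Type := Localization SS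

noncomputable instance : CommRing BB := inferInstanceAs (CommRing (Localization SS))
noncomputable instance : Algebra CC BB := inferInstanceAs (Algebra CC (Localization SS))
instance : IsLocalization SS BB := inferInstanceAs (IsLocalization SS (Localization SS))
instance : IsDomain BB := IsLocalization.isDomain_of_le_nonZeroDivisors BB SS_le
instance : IsNoetherianRing BB := IsLocalization.isNoetherianRing SS BB inferInstance

theorem CtoB_injective : Function.Injective (algebraMap CC BB) :=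
  IsLocalization.injective BB SS_le

/-- the two evaluations of `BB` -/
noncomputable def ε1 : BB →+* kk := IsLocalization.lift (M := SS) (S := BB) (g := e1)
  fun y => IsUnit.mk0 _ y.2.1

noncomputable def ε2 : BB →+* kk := IsLocalization.lift (M := SS) (S := BB) (g := e2)
  fun y => IsUnit.mk0 _ y.2.2

@[simp] theorem ε1_C (c : CC) : ε1 (algebraMap CC BB c) = e1 c := IsLocalization.lift_eq _ _
@[simp] theorem ε2_C (c : CC) : ε2 (algebraMap CC BB c) = e2 c := IsLocalization.lift_eq _ _

noncomputable def sB : BB := algebraMap CC BB sC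
noncomputable def xB : BB := algebraMap CC BB xC
noncomputable def yB : BB := algebraMap CC BB yC
noncomputable def uB : BB := algebraMap CC BB uC
noncomputable def wB : BB := algebraMap CC BB wC

theorem xy_B : xB * yB = uB * wB := by
  simp only [xB, yB, uB, wB, ← map_mul, xy_C]

@[simp] theorem ε1_x : ε1 xB = 0 := by simp [xB]
@[simp] theorem ε1_y : ε1 yB = 0 := by simp [yB]
@[simp] theorem ε1_u : ε1 uB = 0 := by simp [uB]
@[simp] theorem ε1_w : ε1 wB = 0 := by simp [wB]
@[simp] theorem ε2_x : ε2 xB = 1 := by simp [xB]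
@[simp] theorem ε2_y : ε2 yB = 0 := by simp [yB]
@[simp] theorem ε2_u : ε2 uB = 0 := by simp [uB]
@[simp] theorem ε2_w : ε2 wB = 0 := by simp [wB]
@[simp] theorem ε2_s : ε2 sB = 0 := by simp [sB]

theorem surj_B (b : BB) : ∃ c t : CC, t ∈ SS ∧ b * algebraMap CC BB t = algebraMap CC BB c := by
  obtain ⟨⟨c, t⟩, h⟩ := IsLocalization.surj SS b
  exact ⟨c, t, t.2, h⟩

theorem isUnit_of_mem_SS {t : CC} (ht : t ∈ SS) : IsUnit (algebraMap CC BB t) :=
  IsLocalization.map_units BB (⟨t, ht⟩ : SS)

theorem isUnit_B {b : BB} : IsUnit b ↔ ε1 b ≠ 0 ∧ ε2 b ≠ 0 := by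
  constructor
  · intro h
    exact ⟨(h.map ε1).ne_zero, (h.map ε2).ne_zero⟩
  · rintro ⟨h1, h2⟩
    obtain ⟨c, t, ht, h⟩ := surj_B b
    have hc : c ∈ SS := by
      constructor
      · rw [← ε1_C, ← h, map_mul, ε1_C]
        exact mul_ne_zero h1 ht.1
      · rw [← ε2_C, ← h, map_mul, ε2_C]
        exact mul_ne_zero h2 ht.2
    have := isUnit_of_mem_SS hc
    rw [← h] at this
    exact isUnit_of_mul_isUnit_left this

/-- The two evaluations are jointly surjective. -/
theorem ε_surj (c d : kk) : ∃ b : BB, ε1 b = c ∧ ε2 b = d := by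
  obtain ⟨f, g, hg, hfg⟩ := Phi_surj c
  have ht : polyC g * (1 - xC) + xC ∈ SS := by
    constructor
    · simp [e1_polyC, hg]
    · simp
  obtain ⟨v, hv⟩ := isUnit_of_mem_SS ht
  refine ⟨(algebraMap CC BB (polyC f * (1 - xC) + algebraMap kk CC d * xC)) * ↑v⁻¹, ?_, ?_⟩
  · have h1 : ε1 (↑v : BB) = Phi g := by
      rw [hv, ε1_C]; simp [e1_polyC]
    have h2 : ε1 (↑v : BB) * ε1 (↑v⁻¹ : BB) = 1 := by rw [← map_mul]; simp
    rw [h1] at h2
    have h3 : ε1 (↑v⁻¹ : BB) = (Phi g)⁻¹ := by
      field_simp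
      rw [mul_comm]; exact h2
    rw [map_mul, h3, ε1_C]
    simp only [map_add, map_mul, map_sub, map_one, e1_x, e1_polyC, sub_zero, mul_one, mul_zero,
      add_zero]
    field_simp
    rw [mul_comm]
    exact hfg.symm
  · have h1 : ε2 (↑v : BB) = 1 := by
      rw [hv, ε2_C]; simp
    have h2 : ε2 (↑v : BB) * ε2 (↑v⁻¹ : BB) = 1 := by rw [← map_mul]; simp
    rw [h1, one_mul] at h2
    rw [map_mul, h2, ε2_C]
    simp


/-! ### kernels -/

theorem toCC_mod1 (F : MvPolynomial (Fin 5) kk) :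
    ∃ f : Polynomial kk, toCC F - polyC f ∈ Ideal.span ({xC, yC, uC, wC} : Set CC) := by
  induction F using MvPolynomial.induction_on with
  | C a =>
    refine ⟨Polynomial.C a, ?_⟩
    have : toCC (C a) - polyC (Polynomial.C a) = 0 := by
      rw [sub_eq_zero]
      have h1 : toCC (C a) = algebraMap kk CC a := toCC.commutes a
      have h2 : polyC (Polynomial.C a) = algebraMap kk CC a := polyC.commutes a
      rw [h1, h2]
    rw [this]
    exact Ideal.zero_mem _
  | add p q hp hq =>
    obtain ⟨f, hf⟩ := hp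
    obtain ⟨g, hg⟩ := hq
    refine ⟨f + g, ?_⟩
    have : toCC (p + q) - polyC (f + g) = (toCC p - polyC f) + (toCC q - polyC g) := by
      rw [map_add, map_add]; ring
    rw [this]
    exact Ideal.add_mem _ hf hg
  | mul_X p i hp =>
    obtain ⟨f, hf⟩ := hp
    have key : ∀ i : Fin 5, i ≠ 0 → toCC (X i) ∈ Ideal.span ({xC, yC, uC, wC} : Set CC) := by
      intro i hi
      apply Ideal.subset_span
      fin_cases i
      · exact absurd rfl hi
      · exact Or.inl rfl
      · exact Or.inr (Or.inl rfl)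
      · exact Or.inr (Or.inr (Or.inl rfl))
      · exact Or.inr (Or.inr (Or.inr rfl))
    by_cases hi : i = 0
    · subst hi
      refine ⟨f * Polynomial.X, ?_⟩
      have : toCC (p * X 0) - polyC (f * Polynomial.X) = (toCC p - polyC f) * sC := by
        rw [map_mul, map_mul]
        have : polyC Polynomial.X = sC := by simp [polyC]
        rw [this]
        have : toCC (X 0) = sC := rfl
        rw [this]; ring
      rw [this]
      exact Ideal.mul_mem_right _ _ hf
    · refine ⟨0, ?_⟩
      rw [map_mul, map_zero, sub_zero]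
      exact Ideal.mul_mem_left _ _ (key i hi)

theorem toCC_mod2 (F : MvPolynomial (Fin 5) kk) :
    ∃ c : kk, toCC F - algebraMap kk CC c ∈ Ideal.span ({1 - xC, sC, yC, uC, wC} : Set CC) := by
  induction F using MvPolynomial.induction_on with
  | C a =>
    refine ⟨a, ?_⟩
    have : toCC (C a) - algebraMap kk CC a = 0 := by
      rw [sub_eq_zero]
      exact toCC.commutes a
    rw [this]
    exact Ideal.zero_mem _
  | add p q hp hq =>
    obtain ⟨f, hf⟩ := hp
    obtain ⟨g, hg⟩ := hq
    refine ⟨f + g, ?_⟩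
    have : toCC (p + q) - algebraMap kk CC (f + g) =
        (toCC p - algebraMap kk CC f) + (toCC q - algebraMap kk CC g) := by
      rw [map_add, map_add]; ring
    rw [this]
    exact Ideal.add_mem _ hf hg
  | mul_X p i hp =>
    obtain ⟨f, hf⟩ := hp
    by_cases hi : i = 1
    · subst hi
      refine ⟨f, ?_⟩
      have : toCC (p * X 1) - algebraMap kk CC f =
          (toCC p - algebraMap kk CC f) * xC + (- algebraMap kk CC f) * (1 - xC) := by
        rw [map_mul]
        have : toCC (X 1) = xC := rfl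
        rw [this]; ring
      rw [this]
      exact Ideal.add_mem _ (Ideal.mul_mem_right _ _ hf)
        (Ideal.mul_mem_left _ _ (Ideal.subset_span (Or.inl rfl)))
    · have key : toCC (X i) ∈ Ideal.span ({1 - xC, sC, yC, uC, wC} : Set CC) := by
        apply Ideal.subset_span
        fin_cases i
        · exact Or.inr (Or.inl rfl)
        · exact absurd rfl hi
        · exact Or.inr (Or.inr (Or.inl rfl))
        · exact Or.inr (Or.inr (Or.inr (Or.inl rfl)))
        · exact Or.inr (Or.inr (Or.inr (Or.inr rfl)))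
      refine ⟨0, ?_⟩
      rw [map_mul, map_zero, sub_zero]
      exact Ideal.mul_mem_left _ _ key

theorem ker_e1 {c : CC} (hc : e1 c = 0) : c ∈ Ideal.span ({xC, yC, uC, wC} : Set CC) := by
  obtain ⟨F, rfl⟩ := toCC_surjective c
  obtain ⟨f, hf⟩ := toCC_mod1 F
  have h0 : ∀ z ∈ Ideal.span ({xC, yC, uC, wC} : Set CC), e1 z = 0 := by
    intro z hz
    have : Ideal.span ({xC, yC, uC, wC} : Set CC) ≤ RingHom.ker e1 := by
      rw [Ideal.span_le]
      rintro z (rfl | rfl | rfl | rfl) <;> simp [RingHom.mem_ker]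
    exact this hz
  have h1 := h0 _ hf
  rw [map_sub, hc, e1_polyC, zero_sub, neg_eq_zero] at h1
  have h2 : f = 0 := Phi_injective (by rw [h1, map_zero])
  rw [h2, map_zero, sub_zero] at hf
  exact hf

theorem ker_e2 {c : CC} (hc : e2 c = 0) : c ∈ Ideal.span ({1 - xC, sC, yC, uC, wC} : Set CC) := by
  obtain ⟨F, rfl⟩ := toCC_surjective c
  obtain ⟨f, hf⟩ := toCC_mod2 F
  have h0 : ∀ z ∈ Ideal.span ({1 - xC, sC, yC, uC, wC} : Set CC), e2 z = 0 := by
    intro z hz
    have : Ideal.span ({1 - xC, sC, yC, uC, wC} : Set CC) ≤ RingHom.ker e2 := by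
      rw [Ideal.span_le]
      rintro z (rfl | rfl | rfl | rfl | rfl) <;> simp [RingHom.mem_ker]
    exact this hz
  have h1 := h0 _ hf
  rw [map_sub, hc, e2_algebraMap, zero_sub, neg_eq_zero] at h1
  rw [h1, map_zero, sub_zero] at hf
  exact hf

/-- the maximal ideal of the first point is generated by `x, y, u, w`. -/
theorem ker_ε1 : RingHom.ker ε1 = Ideal.span ({xB, yB, uB, wB} : Set BB) := by
  apply le_antisymm
  · intro b hb
    rw [RingHom.mem_ker] at hb
    obtain ⟨c, t, ht, h⟩ := surj_B b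
    have hc : e1 c = 0 := by rw [← ε1_C, ← h, map_mul, hb, zero_mul]
    have h1 := Ideal.mem_map_of_mem (algebraMap CC BB) (ker_e1 hc)
    rw [Ideal.map_span, ← h] at h1
    have h2 : (algebraMap CC BB) '' ({xC, yC, uC, wC} : Set CC) = {xB, yB, uB, wB} := by
      simp [Set.image_insert_eq, xB, yB, uB, wB]
    rw [h2] at h1
    obtain ⟨v, hv⟩ := isUnit_of_mem_SS ht
    have h3 := Ideal.mul_mem_right (↑v⁻¹ : BB) _ h1
    rwa [← hv, mul_assoc, Units.mul_inv, mul_one] at h3
  · rw [Ideal.span_le]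
    rintro z (rfl | rfl | rfl | rfl) <;> simp [RingHom.mem_ker]

/-- the maximal ideal of the second point is generated by `1 - x, s x, u, w`. -/
theorem ker_ε2 : RingHom.ker ε2 = Ideal.span ({1 - xB, sB * xB, uB, wB} : Set BB) := by
  apply le_antisymm
  · intro b hb
    rw [RingHom.mem_ker] at hb
    obtain ⟨c, t, ht, h⟩ := surj_B b
    have hc : e2 c = 0 := by rw [← ε2_C, ← h, map_mul, hb, zero_mul]
    have h1 := Ideal.mem_map_of_mem (algebraMap CC BB) (ker_e2 hc)
    rw [Ideal.map_span, ← h] at h1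
    have h2 : (algebraMap CC BB) '' ({1 - xC, sC, yC, uC, wC} : Set CC) =
        {1 - xB, sB, yB, uB, wB} := by
      simp [Set.image_insert_eq, xB, yB, uB, wB, sB]
    rw [h2] at h1
    have h5 : Ideal.span ({1 - xB, sB, yB, uB, wB} : Set BB) ≤
        Ideal.span ({1 - xB, sB * xB, uB, wB} : Set BB) := by
      rw [Ideal.span_le]
      have g1 : (1 - xB) ∈ Ideal.span ({1 - xB, sB * xB, uB, wB} : Set BB) :=
        Ideal.subset_span (Or.inl rfl)
      have g2 : (sB * xB) ∈ Ideal.span ({1 - xB, sB * xB, uB, wB} : Set BB) :=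
        Ideal.subset_span (Or.inr (Or.inl rfl))
      have g3 : uB ∈ Ideal.span ({1 - xB, sB * xB, uB, wB} : Set BB) :=
        Ideal.subset_span (Or.inr (Or.inr (Or.inl rfl)))
      have g4 : wB ∈ Ideal.span ({1 - xB, sB * xB, uB, wB} : Set BB) :=
        Ideal.subset_span (Or.inr (Or.inr (Or.inr rfl)))
      rintro z (rfl | rfl | rfl | rfl | rfl)
      · exact g1
      · have h7 : sB * (1 - xB) + sB * xB ∈ Ideal.span ({1 - xB, sB * xB, uB, wB} : Set BB) :=
          Ideal.add_mem _ (Ideal.mul_mem_left _ _ g1) g2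
        have h8 : sB * (1 - xB) + sB * xB = sB := by ring
        rwa [h8] at h7
      · have h7 : yB * (1 - xB) + uB * wB ∈ Ideal.span ({1 - xB, sB * xB, uB, wB} : Set BB) :=
          Ideal.add_mem _ (Ideal.mul_mem_left _ _ g1) (Ideal.mul_mem_left _ _ g4)
        have h8 : yB * (1 - xB) + uB * wB = yB := by rw [← xy_B]; ring
        rwa [h8] at h7
      · exact g3
      · exact g4
    obtain ⟨v, hv⟩ := isUnit_of_mem_SS ht
    have h3 := Ideal.mul_mem_right (↑v⁻¹ : BB) _ (h5 h1)
    rwa [← hv, mul_assoc, Units.mul_inv, mul_one] at h3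
  · rw [Ideal.span_le]
    rintro z (rfl | rfl | rfl | rfl) <;> simp [RingHom.mem_ker]

/-! ### the pinched ring -/

/-- The ring `A` of the counterexample. -/
noncomputable def AA : Subring BB := RingHom.eqLocus ε1 ε2

theorem mem_AA {b : BB} : b ∈ AA ↔ ε1 b = ε2 b := Iff.rfl

/-- the residue map of `AA` -/
noncomputable def εA : AA →+* kk := ε1.comp AA.subtype

theorem εA_apply (a : AA) : εA a = ε1 a := rfl
theorem εA_apply' (a : AA) : εA a = ε2 a := a.2

theorem isUnit_AA {a : AA} : IsUnit a ↔ εA a ≠ 0 := by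
  constructor
  · intro h
    exact (h.map εA).ne_zero
  · intro h
    have hu : IsUnit (a : BB) := isUnit_B.2 ⟨h, by rw [← εA_apply']; exact h⟩
    obtain ⟨v, hv⟩ := hu
    have h1 : ε1 (↑v⁻¹ : BB) = (ε1 a)⁻¹ := by
      have h2 : ε1 (↑v : BB) * ε1 (↑v⁻¹ : BB) = 1 := by rw [← map_mul]; simp
      rw [hv] at h2
      exact eq_inv_of_mul_eq_one_right h2
    have h2 : ε2 (↑v⁻¹ : BB) = (ε2 a)⁻¹ := by
      have h2 : ε2 (↑v : BB) * ε2 (↑v⁻¹ : BB) = 1 := by rw [← map_mul]; simp
      rw [hv] at h2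
      exact eq_inv_of_mul_eq_one_right h2
    have h3 : (↑v⁻¹ : BB) ∈ AA := by
      rw [mem_AA, h1, h2, mem_AA.1 a.2]
    refine IsUnit.of_mul_eq_one (⟨_, h3⟩ : AA) ?_
    apply Subtype.ext
    simp [← hv]

instance : IsLocalRing AA := by
  apply IsLocalRing.of_nonunits_add
  intro a b ha hb
  rw [mem_nonunits_iff, isUnit_AA, not_not] at ha hb ⊢
  rw [map_add, ha, hb, add_zero]

theorem mem_max {a : AA} : a ∈ IsLocalRing.maximalIdeal AA ↔ εA a = 0 := by
  rw [IsLocalRing.mem_maximalIdeal, mem_nonunits_iff, isUnit_AA, not_not]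

/-- an element of `BB` vanishing at both points, as an element of `AA`. -/
theorem mem_AA_of_zero {b : BB} (h1 : ε1 b = 0) (h2 : ε2 b = 0) : b ∈ AA := by
  rw [mem_AA, h1, h2]

theorem AA_add (b : BB) : ∃ a : AA, ∃ d : kk, b = a + algebraMap CC BB (algebraMap kk CC d) * xB := by
  refine ⟨⟨b - algebraMap CC BB (algebraMap kk CC (ε2 b - ε1 b)) * xB, ?_⟩, ε2 b - ε1 b, ?_⟩
  · rw [mem_AA]
    simp
  · simp

theorem εA_surjective : Function.Surjective εA := by
  intro c
  obtain ⟨b, h1, h2⟩ := ε_surj c c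
  exact ⟨⟨b, by rw [mem_AA, h1, h2]⟩, h1⟩

/-- `BB = AA + AA x`. -/
theorem BB_eq (b : BB) : ∃ a a' : AA, b = a + a' * xB := by
  obtain ⟨a', ha'⟩ := εA_surjective (ε2 b - ε1 b)
  refine ⟨⟨b - a' * xB, ?_⟩, a', ?_⟩
  · rw [mem_AA]
    simp only [map_sub, map_mul, ε1_x, ε2_x, mul_zero, mul_one, sub_zero]
    rw [← εA_apply', ha']
    ring
  · simp

end Pool.Agent.H59.NC
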